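import Mathlib
import Pool.Agent.Helper398.EEFinal
import Pool.Agent.Helper398.Bridge

set_option autoImplicit false

namespace Pool.Agent.Results.MP_ee6709_co.ExactValue

/-- `Σ* A`: the set of sums of the nonempty subsets of `A` (each element used at most once). -/
def SigmaStar {G : Type} [AddCommGroup G] (A : Finset G) : Set G :=
  {s | ∃ B : Finset G, B ⊆ A ∧ B.Nonempty ∧ ∑ b ∈ B, b = s}

/-- `ρ_Z(G, m)`: the minimum of `|Σ* A|` over the `m`-element subsets `A` of `G` with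
`0 ∉ Σ* A`; it is `⊤ = ∞` when there is no such `A` (infimum over the empty family in `ℕ∞`). -/
noncomputable def rhoZ (G : Type) [AddCommGroup G] (m : ℕ) : ℕ∞ :=
  ⨅ A : {A : Finset G // A.card = m ∧ (0 : G) ∉ SigmaStar A}, (SigmaStar A.1).encard

/-- `f(m)`: the minimum of `ρ_Z(G, m)` over all finite abelian groups `G`. -/
noncomputable def f (m : ℕ) : ℕ∞ :=
  ⨅ (G : Type) (_ : AddCommGroup G) (_ : Finite G), rhoZ G m

theorem f_le (m : ℕ) : f m ≤ ((m ^ 2 / 2 + 1 : ℕ) : ℕ∞) := by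
  classical
  obtain ⟨A, hA, hA2, hA3⟩ := Pool.Agent.Helper398.example_upper m
  have h0 : (0 : ZMod (m ^ 2 + 1) × ZMod 2) ∉ SigmaStar A := by
    rintro ⟨B, hB, hne, hs⟩
    exact hA2 B hB hne hs
  have hfin : Finite (ZMod (m ^ 2 + 1) × ZMod 2) := inferInstance
  have h1 := Pool.Agent.Helper398.ncard_bridge A (SigmaStar A) (fun s => Iff.rfl) h0
  have h2 : f m ≤ (SigmaStar A).encard := by
    refine (iInf_le _ (ZMod (m ^ 2 + 1) × ZMod 2)).trans ?_
    refine (iInf_le _ (inferInstance : AddCommGroup (ZMod (m ^ 2 + 1) × ZMod 2))).trans ?_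
    refine (iInf_le _ hfin).trans ?_
    exact iInf_le (fun A : {A : Finset (ZMod (m ^ 2 + 1) × ZMod 2) //
      A.card = m ∧ (0 : ZMod (m ^ 2 + 1) × ZMod 2) ∉ SigmaStar A} => (SigmaStar A.1).encard)
      ⟨A, hA, h0⟩
  refine h2.trans ?_
  rw [← Set.Finite.cast_ncard_eq (Set.toFinite _)]
  have h3 : (SigmaStar A).ncard ≤ m ^ 2 / 2 + 1 := by omega
  exact_mod_cast h3

/-- **The exact value of `f(m)` for all large `m`**, and the answer to the question: only finitely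
many `m` satisfy `f(m) ≤ ⌊m²/2⌋`. -/
theorem result :
    (∃ M : ℕ, ∀ m : ℕ, M ≤ m → f m = ((m ^ 2 / 2 + 1 : ℕ) : ℕ∞)) ∧
    {m : ℕ | f m ≤ ((m ^ 2 / 2 : ℕ) : ℕ∞)}.Finite := by
  classical
  obtain ⟨M, hM⟩ := Pool.Agent.Helper398.main_exact
  have key : ∀ m : ℕ, M ≤ m → f m = ((m ^ 2 / 2 + 1 : ℕ) : ℕ∞) := by
    intro m hm
    apply le_antisymm (f_le m)
    refine le_iInf fun G => le_iInf fun _ => le_iInf fun _ => le_iInf ?_
    rintro ⟨A, hA, h0⟩
    have h1 := Pool.Agent.Helper398.ncard_bridge A (SigmaStar A) (fun s => Iff.rfl) h0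
    have h2 := hM G A
      (Pool.Agent.Helper398.ZSF_of_notMem A (SigmaStar A) (fun s => Iff.rfl) h0) (by omega)
    rw [hA] at h2
    show _ ≤ (SigmaStar A).encard
    rw [← Set.Finite.cast_ncard_eq (Set.toFinite _)]
    have h3 : m ^ 2 / 2 + 1 ≤ (SigmaStar A).ncard := by omega
    exact_mod_cast h3
  refine ⟨⟨M, key⟩, ?_⟩
  apply Set.Finite.subset (Set.finite_lt_nat M)
  intro m hm
  show m < M
  replace hm : f m ≤ ((m ^ 2 / 2 : ℕ) : ℕ∞) := hm
  by_contra hc
  push Not at hc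
  rw [key m hc] at hm
  have : m ^ 2 / 2 + 1 ≤ m ^ 2 / 2 := by exact_mod_cast hm
  omega

end Pool.Agent.Results.MP_ee6709_co.ExactValue
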